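import Pool.Agent.K1H61.Zst.Main

/-!
# Integral points that do not grow over `𝓞 K`: quadratic fields and quartic CM fields
-/

set_option autoImplicit false

namespace Pool.Agent.Results.MP_14ad9d_nt.QuadraticQuarticCM

open AlgebraicGeometry CategoryTheory NumberField Module Pool.Agent.K1H61.Zst

/-- the scheme `(1+3s)² - 9Dt² = 1` -/
theorem scheme_of_good (K : Type) [Field K] [NumberField K] (D : ℤ) (hD : 0 < D)
    (hns : ¬ IsSquare D) (hgood : Good D (𝓞 K)) :
    ∃ (X : Scheme.{0}) (f : X ⟶ Spec (CommRingCat.of ℤ)),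
        LocallyOfFiniteType f ∧ QuasiCompact f ∧
        Infinite (Spec (CommRingCat.of ℤ) ⟶ X) ∧
        Function.Bijective (fun g : Spec (CommRingCat.of ℤ) ⟶ X =>
          Spec.map (CommRingCat.ofHom (algebraMap ℤ (𝓞 K))) ≫ g) := by
  refine ⟨Spec (CommRingCat.of (Co D)), Spec.map (CommRingCat.ofHom (algebraMap ℤ (Co D))),
    ?_, inferInstance, ?_, ?_, ?_⟩
  · rw [HasRingHomProperty.Spec_iff (P := @LocallyOfFiniteType)]
    show (algebraMap ℤ (Co D)).FiniteType
    rw [RingHom.finiteType_algebraMap]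
    infer_instance
  · have h1 : Infinite {z : ℤ × ℤ | (1 + 3 * z.1) ^ 2 - 9 * D * z.2 ^ 2 = 1} :=
      (infinite_sol D hD hns).to_subtype
    refine Infinite.of_injective (fun z : {z : ℤ × ℤ | (1 + 3 * z.1) ^ 2 - 9 * D * z.2 ^ 2 = 1} =>
      Spec.map (CommRingCat.ofHom (pt D z.1.1 z.1.2 (by
        have h : (1 + 3 * z.1.1) ^ 2 - 9 * D * z.1.2 ^ 2 = 1 := z.2
        rw [Int.cast_id]
        exact h)))) ?_
    intro z w h
    have h2 := Spec.map_injective h
    have h3 := congrArg CommRingCat.Hom.hom h2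
    simp only [CommRingCat.hom_ofHom] at h3
    have h4 := congrArg (fun g : Co D →+* ℤ => g (cs D)) h3
    have h5 := congrArg (fun g : Co D →+* ℤ => g (ct D)) h3
    simp only [pt_cs, pt_ct] at h4 h5
    exact Subtype.ext (Prod.ext h4 h5)
  · intro g h hgh
    obtain ⟨g', rfl⟩ := Spec.map_surjective g
    obtain ⟨h', rfl⟩ := Spec.map_surjective h
    simp only [← Spec.map_comp] at hgh
    have h2 := Spec.map_injective hgh
    have h3 := congrArg CommRingCat.Hom.hom h2
    have hinj : Function.Injective (algebraMap ℤ (𝓞 K)) := FaithfulSMul.algebraMap_injective _ _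
    congr 1
    apply CommRingCat.hom_ext
    apply hom_ext
    · apply hinj
      exact congrArg (fun e : Co D →+* 𝓞 K => e (cs D)) h3
    · apply hinj
      exact congrArg (fun e : Co D →+* 𝓞 K => e (ct D)) h3
  · intro g
    obtain ⟨g', rfl⟩ := Spec.map_surjective g
    obtain ⟨a, b, ha, hb⟩ := hgood (g'.hom (cs D)) (g'.hom (ct D)) (hom_eq D g'.hom)
    have hab : (1 + 3 * a) ^ 2 - 9 * (D : ℤ) * b ^ 2 = 1 := by
      have h1 := hom_eq D g'.hom
      rw [ha, hb] at h1
      exact_mod_cast h1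
    have hab2 : (1 + 3 * a) ^ 2 - 9 * (Int.cast D : ℤ) * b ^ 2 = 1 := by
      rw [Int.cast_id]
      exact hab
    refine ⟨Spec.map (CommRingCat.ofHom (pt D a b hab2)), ?_⟩
    show Spec.map (CommRingCat.ofHom (algebraMap ℤ (𝓞 K))) ≫ Spec.map _ = _
    rw [← Spec.map_comp]
    congr 1
    apply CommRingCat.hom_ext
    apply hom_ext
    · show algebraMap ℤ (𝓞 K) (pt D a b hab2 (cs D)) = g'.hom (cs D)
      rw [pt_cs, ha]
      simp
    · show algebraMap ℤ (𝓞 K) (pt D a b hab2 (ct D)) = g'.hom (ct D)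
      rw [pt_ct, hb]
      simp

theorem result (K : Type) [Field K] [NumberField K]
    (hK : finrank ℚ K = 2 ∨ (IsCMField K ∧ finrank ℚ K = 4)) :
    ∃ (X : Scheme.{0}) (f : X ⟶ Spec (CommRingCat.of ℤ)),
        LocallyOfFiniteType f ∧ QuasiCompact f ∧
        Infinite (Spec (CommRingCat.of ℤ) ⟶ X) ∧
        Function.Bijective (fun g : Spec (CommRingCat.of ℤ) ⟶ X =>
          Spec.map (CommRingCat.ofHom (algebraMap ℤ (𝓞 K))) ≫ g) := by
  obtain ⟨D, hD, hns, hgood⟩ := exists_good K hK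
  exact scheme_of_good K D hD hns hgood

end Pool.Agent.Results.MP_14ad9d_nt.QuadraticQuarticCM
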